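import Mathlib
import Pool.Agent.Lib.H87I.Cube

/-!
# MP_eb94e6_gt: arbitrarily large gaps between `dδ` and `dπ` for compact spaces

The definitions are in `Pool.Agent.Lib.H87I.Defs`.

* `dd Y` is the smallest cardinal `κ` for which some dense subset of `Y` is a union of `κ` discrete
  subsets of `Y`.
* `dDelta X` is the supremum of `dd D` over the dense subspaces `D` of `X`.
* `dPi X` is the smallest cardinal `κ` such that `X` has a `π`-base which is a union of `κ` disjoint
  collections.
-/

set_option autoImplicit false

namespace Pool.Agent.Results.MP_eb94e6_gt.CantorCubes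

open Pool.Agent.Lib.H87I Cardinal

universe u

/-- For every cardinal `κ` there is a set `I` of more than `κ` coordinates such that the Cantor cube
`{0,1}^I`, a compact Hausdorff space, has `dδ = ℵ₀` and `dπ` equal to the cardinality of `I`. -/
theorem result (κ : Cardinal.{u}) :
    ∃ I : Type u, κ < #I ∧ CompactSpace (I → Bool) ∧ T2Space (I → Bool) ∧
      dDelta (I → Bool) = ℵ₀ ∧ dPi (I → Bool) = #I := by
  let T : Type u := (Order.succ (max κ ℵ₀)).out
  have hT : #T = Order.succ (max κ ℵ₀) := mk_out _
  have hT1 : max κ ℵ₀ < #T := by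
    rw [hT]
    exact Order.lt_succ _
  have hinf : Infinite T := infinite_iff.2 ((le_max_right _ _).trans hT1.le)
  have hI : max κ ℵ₀ < #(I T) :=
    hT1.trans_le (mk_le_of_injective (f := (Sum.inl : T → I T)) Sum.inl_injective)
  exact ⟨I T, (le_max_left _ _).trans_lt hI, inferInstance, inferInstance, dDelta_cube T,
    dPi_cube ((le_max_right _ _).trans_lt hI)⟩

end Pool.Agent.Results.MP_eb94e6_gt.CantorCubes
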